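import Pool.Agent.Q237.LR.Stm2

/-!
# Project LR: the third bad event
-/

set_option autoImplicit false

namespace Pool.Agent.Q187.LR

open MeasureTheory ProbabilityTheory Set H10PL Pool.Agent.Q237.LR2

theorem restrict_mpg {d : ℕ} (μ : Measure ℝ) [IsProbabilityMeasure μ] (Λ : Finset (Fin d → ℤ)) :
    MeasurePreserving (fun (V : (Fin d → ℤ) → ℝ) (y : Λ) => V y) (PVg d μ)
      (Measure.pi fun _ : Λ => μ) := by
  refine ⟨by fun_prop, ?_⟩
  exact Measure.infinitePi_map_restrict (fun _ : (Fin d → ℤ) => μ) (I := Λ)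

section

variable {d : ℕ} (T0 : (Fin d → ℤ) → (Fin d → ℤ) → ℝ) (κ : (Fin d → ℤ) → ℝ) (ρ η : ℝ)
  (Λ : Finset (Fin d → ℤ))

/-- the sites of `F` as elements of the box -/
def FL (F : Finset (Fin d → ℤ)) : Finset Λ := Finset.univ.filter fun j : Λ => (j : Fin d → ℤ) ∈ F

/-- the event for fixed signs -/
def Ev (F : Finset (Fin d → ℤ)) (q c : ℝ) (X : Λ) (s : Sym2 (Fin d → ℤ) → Bool) : Set (ℝ × (Λ → ℝ)) :=
  {p | q ≤ ∑ y ∈ FL Λ F, Pm (cut (Am T0 κ ρ Λ s) X) p.2 p.1 η y y ∧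
    (Sg (Am T0 κ ρ Λ s) p.2 p.1 η X).im ≤ c}

theorem Ev_meas (F : Finset (Fin d → ℤ)) (q c : ℝ) (X : Λ) (s : Sym2 (Fin d → ℤ) → Bool) :
    MeasurableSet (Ev T0 κ ρ η Λ F q c X s) := by
  refine MeasurableSet.inter ?_ ?_
  · exact measurableSet_le measurable_const (Finset.measurable_sum _ fun y _ => measurable_Pm' _ η y y)
  · exact measurableSet_le (Complex.measurable_im.comp (measurable_Sg _ η X)) measurable_const

/-- the integrand for fixed signs -/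
noncomputable def Gi (F : Finset (Fin d → ℤ)) (q c : ℝ) (X : Λ) (s : Sym2 (Fin d → ℤ) → Bool) :
    ℝ × (Λ → ℝ) → ENNReal :=
  (Ev T0 κ ρ η Λ F q c X s).indicator fun p => ENNReal.ofReal (Pm (Am T0 κ ρ Λ s) p.2 p.1 η X X)

theorem Gi_meas (F : Finset (Fin d → ℤ)) (q c : ℝ) (X : Λ) (s : Sym2 (Fin d → ℤ) → Bool) :
    Measurable (Gi T0 κ ρ η Λ F q c X s) :=
  (measurable_Pm' _ η X X).ennreal_ofReal.indicator (Ev_meas T0 κ ρ η Λ F q c X s)

/-- the event on the whole space -/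
def EvP (F : Finset (Fin d → ℤ)) (q c : ℝ) (x : Fin d → ℤ) : Set (Pt d) :=
  {p | q ≤ ∑ y ∈ F, CL T0 κ ρ η Λ x y p ∧ SL T0 κ ρ η Λ x p ≤ c}

theorem EvP_meas (hM : S_MSR) (F : Finset (Fin d → ℤ)) (q c : ℝ) (x : Fin d → ℤ) :
    MeasurableSet (EvP T0 κ ρ η Λ F q c x) := by
  refine MeasurableSet.inter ?_ ?_
  · exact measurableSet_le measurable_const
      (Finset.measurable_sum _ fun y _ => (hM d T0 κ ρ η Λ x y).2.2)
  · exact measurableSet_le (hM d T0 κ ρ η Λ x x).2.1 measurable_const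

theorem sum_CL (F : Finset (Fin d → ℤ)) (hF : F ⊆ Λ) (x : Fin d → ℤ) (hx : x ∈ Λ) (p : Pt d) :
    ∑ y ∈ F, CL T0 κ ρ η Λ x y p =
      ∑ y ∈ FL Λ F, Pm (cut (Am T0 κ ρ Λ p.2.2) ⟨x, hx⟩) (fun i : Λ => p.2.1 i) p.1 η y y := by
  refine Finset.sum_bij' (fun y hy => (⟨y, hF hy⟩ : Λ)) (fun y _ => (y : Fin d → ℤ)) ?_ ?_ ?_ ?_ ?_
  · intro y hy
    simp [FL, hy]
  · intro y hy
    exact (Finset.mem_filter.1 hy).2
  · intro y _
    rfl
  · intro y _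
    rfl
  · intro y hy
    unfold CL
    rw [dif_pos hx, dif_pos (hF hy)]

theorem mem_EvP (F : Finset (Fin d → ℤ)) (hF : F ⊆ Λ) (q c : ℝ) (x : Fin d → ℤ) (hx : x ∈ Λ) (p : Pt d) :
    p ∈ EvP T0 κ ρ η Λ F q c x ↔
      (p.1, fun i : Λ => p.2.1 i) ∈ Ev T0 κ ρ η Λ F q c ⟨x, hx⟩ p.2.2 := by
  unfold EvP Ev
  rw [mem_ofPred_eq, mem_ofPred_eq, sum_CL T0 κ ρ η Λ F hF x hx p]
  unfold SL
  rw [dif_pos hx]

theorem ind_EvP (F : Finset (Fin d → ℤ)) (hF : F ⊆ Λ) (q c : ℝ) (x : Fin d → ℤ) (hx : x ∈ Λ) (p : Pt d) :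
    (EvP T0 κ ρ η Λ F q c x).indicator (fun p => ENNReal.ofReal (PL T0 κ ρ η Λ x p)) p =
      Gi T0 κ ρ η Λ F q c ⟨x, hx⟩ p.2.2 (p.1, fun i : Λ => p.2.1 i) := by
  unfold Gi
  by_cases h : p ∈ EvP T0 κ ρ η Λ F q c x
  · rw [indicator_of_mem h, indicator_of_mem ((mem_EvP T0 κ ρ η Λ F hF q c x hx p).1 h)]
    unfold PL
    rw [dif_pos hx]
  · rw [indicator_of_notMem h,
      indicator_of_notMem (fun hc => h ((mem_EvP T0 κ ρ η Λ F hF q c x hx p).2 hc))]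

end

theorem bc : S_MSR → S_MAT → S_BC := by
  intro hM hA d T0 κ ρ0 b ρ η Λ F μ D K β B M q x hμ hD hμD hAdm hη hK hq hFΛ hx hxF hβ hF hM2
  classical
  set bd := ENNReal.ofReal (2 * K * Real.pi * D * (16 * B ^ 2 / (η * q))) with hbd
  set μE := (volume.restrict (Icc (-K) K) : Measure ℝ) with hμE
  set γ : Measure (Λ → ℝ) := Measure.pi fun _ : Λ => μ with hγ
  set f : Pt d → ENNReal := (EvP T0 κ ρ η Λ F q (M * η) x).indicator
    (fun p => ENNReal.ofReal (PL T0 κ ρ η Λ x p)) with hf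
  have hfm : Measurable f :=
    (hM d T0 κ ρ η Λ x x).1.ennreal_ofReal.indicator (EvP_meas T0 κ ρ η Λ hM F q (M * η) x)
  set F0 : (Sym2 (Fin d → ℤ) → Bool) → ENNReal := fun s =>
    ∫⁻ w, Gi T0 κ ρ η Λ F q (M * η) ⟨x, hx⟩ s w ∂(μE.prod γ) with hF0
  have h1 : ∫⁻ p in {p | q ≤ ∑ y ∈ F, CL T0 κ ρ η Λ x y p ∧ SL T0 κ ρ η Λ x p ≤ M * η},
      ENNReal.ofReal (PL T0 κ ρ η Λ x p) ∂(mE d μ K) = ∫⁻ p, f p ∂(mE d μ K) := by
    rw [hf, lintegral_indicator (EvP_meas T0 κ ρ η Λ hM F q (M * η) x)]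
    rfl
  have hmp := measurePreserving_prodAssoc μE (PVg d μ) (Ps d)
  have hfm2 : Measurable fun z : (ℝ × ((Fin d → ℤ) → ℝ)) × (Sym2 (Fin d → ℤ) → Bool) =>
      f (MeasurableEquiv.prodAssoc z) := hfm.comp hmp.measurable
  have h2 : ∫⁻ p, f p ∂(mE d μ K) = ∫⁻ s, ∫⁻ r, f (r.1, r.2, s) ∂(μE.prod (PVg d μ)) ∂(Ps d) := by
    unfold mE
    rw [← hmp.lintegral_comp hfm, lintegral_prod_symm' _ hfm2]
    rfl
  have hres : ∀ s, ∫⁻ r, f (r.1, r.2, s) ∂(μE.prod (PVg d μ)) = F0 s := by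
    intro s
    have hmp3 := (MeasurePreserving.id μE).prod (restrict_mpg μ Λ)
    simp only [hF0, hγ]
    rw [← hmp3.lintegral_comp (Gi_meas T0 κ ρ η Λ F q (M * η) ⟨x, hx⟩ s)]
    refine lintegral_congr fun r => ?_
    exact ind_EvP T0 κ ρ η Λ F hFΛ q (M * η) x hx (r.1, r.2, s)
  have hF0m : Measurable F0 := by
    have h3 : Measurable fun s => ∫⁻ r, f (r.1, r.2, s) ∂(μE.prod (PVg d μ)) :=
      Measurable.lintegral_prod_left' hfm2
    have h4 : (fun s => ∫⁻ r, f (r.1, r.2, s) ∂(μE.prod (PVg d μ))) = F0 := funext hres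
    rwa [h4] at h3
  rw [h1, h2, lintegral_congr hres]
  set S : Finset (Fin d → ℤ) := F.image fun y => x - y with hS
  have h0 : (0 : Fin d → ℤ) ∉ S := by
    intro hc
    obtain ⟨y, hy, hxy⟩ := Finset.mem_image.1 hc
    exact hxF (by rw [sub_eq_zero.1 hxy]; exact hy)
  have hSρ : ∀ z ∈ S, ‖z‖ ≤ ρ := by
    intro z hz
    obtain ⟨y, hy, rfl⟩ := Finset.mem_image.1 hz
    exact (hF y hy).2.2
  have hSmem : ∀ j : Λ, x - (j : Fin d → ℤ) ∈ S ↔ (j : Fin d → ℤ) ∈ F := by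
    intro j
    constructor
    · intro hc
      obtain ⟨y, hy, hxy⟩ := Finset.mem_image.1 hc
      have : y = j := sub_right_injective hxy
      rw [← this]; exact hy
    · intro hc
      exact Finset.mem_image_of_mem _ hc
  have hflip : ∀ ε : Λ → Bool, ∫⁻ s, F0 (flipS (TF Λ S x ε) s) ∂(Ps d) = ∫⁻ s, F0 s ∂(Ps d) :=
    fun ε => (flip_mp (TF Λ S x ε)).lintegral_comp hF0m
  have hpt : ∀ s, ∑ ε : Λ → Bool, F0 (flipS (TF Λ S x ε) s) ≤ 2 ^ (Fintype.card Λ) * bd := by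
    intro s
    have := hA Λ (AbF T0 κ ρ Λ S x hx s) ⟨x, hx⟩ (cF κ Λ S x s) (FL Λ F) μ D K β B M η q hμ hD hμD
      (AbF_symm hAdm ρ Λ S x hx s) (AbF_diag hAdm ρ Λ S x hx s h0) (by simp [FL, hxF]) (by
        intro i hi
        unfold cF
        rw [if_neg]
        intro hc
        exact hi (by simp only [FL, Finset.mem_filter, Finset.mem_univ, true_and]; exact (hSmem i).1 hc))
      hβ (by
        intro i hi
        have hi' : (i : Fin d → ℤ) ∈ F := (Finset.mem_filter.1 hi).2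
        unfold cF
        rw [if_pos ((hSmem i).2 hi'), abs_mul, asm_abs_sg, one_mul]
        exact ⟨(hF _ hi').1, (hF _ hi').2.1⟩) hK hη hq hM2
    refine le_trans (le_of_eq ?_) this
    refine Finset.sum_congr rfl fun ε _ => ?_
    simp only [hF0]
    unfold Gi
    rw [lintegral_indicator (Ev_meas T0 κ ρ η Λ F q (M * η) ⟨x, hx⟩ _)]
    unfold Ev
    rw [Am_flip hAdm Λ S x hx s h0 hSρ ε, fv_cut_Aeps]
  have h2' : (2 : ENNReal) ^ (Fintype.card Λ) * ∫⁻ s, F0 s ∂(Ps d) ≤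
      2 ^ (Fintype.card Λ) * bd := by
    calc (2 : ENNReal) ^ (Fintype.card Λ) * ∫⁻ s, F0 s ∂(Ps d)
        = ∑ ε : Λ → Bool, ∫⁻ s, F0 s ∂(Ps d) := by
          rw [Finset.sum_const, Finset.card_univ, Fintype.card_fun, Fintype.card_bool,
            nsmul_eq_mul]
          norm_num
      _ = ∑ ε : Λ → Bool, ∫⁻ s, F0 (flipS (TF Λ S x ε) s) ∂(Ps d) :=
          Finset.sum_congr rfl fun ε _ => (hflip ε).symm
      _ = ∫⁻ s, ∑ ε : Λ → Bool, F0 (flipS (TF Λ S x ε) s) ∂(Ps d) := by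
          rw [lintegral_finsetSum]
          intro ε _
          exact hF0m.comp (flip_mp (TF Λ S x ε)).measurable
      _ ≤ ∫⁻ _s, 2 ^ (Fintype.card Λ) * bd ∂(Ps d) := lintegral_mono hpt
      _ = 2 ^ (Fintype.card Λ) * bd := by simp
  have h3 : (2 : ENNReal) ^ (Fintype.card Λ) ≠ 0 := by positivity
  have h4 : (2 : ENNReal) ^ (Fintype.card Λ) ≠ ⊤ := by
    exact ENNReal.pow_ne_top (by norm_num)
  exact (ENNReal.mul_le_mul_iff_right h3 h4).1 h2'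

end Pool.Agent.Q187.LR
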